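import Pool.Agent.H380.BG.Stm

/-!
# Project BG (helper380): short intervals and the power bound
-/

set_option autoImplicit false

namespace Pool.Agent.H784.BG

open Complex MeasureTheory Filter Topology Set
open Pool.Agent.W475.BG (Shrt)
open Pool.Agent.H380.BG

/-- The bound on the line `re s = 3/2`. -/
theorem line_bd (b : ℕ → ℝ) (W : ℂ → ℂ) (h : Cont b W) :
    ∃ C : ℝ, ∀ t : ℝ, ‖W (3 / 2 + I * t)‖ ≤ C * (1 + |t|) := by
  have hs := h.summ (3 / 2) (by norm_num)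
  refine ⟨∑' n : ℕ, b n * (n : ℝ) ^ (-(3 / 2 : ℝ)), fun t => ?_⟩
  have hre : ((3 / 2 + I * t : ℂ)).re = 3 / 2 := by
    simp
  have h1 : W (3 / 2 + I * t) = (3 / 2 + I * t - 1) *
      ∑' n : ℕ, (b n : ℂ) * (n : ℂ) ^ (-(3 / 2 + I * t : ℂ)) := h.ser _ (by rw [hre]; norm_num)
  have hn : ∀ n : ℕ, ‖(b n : ℂ) * (n : ℂ) ^ (-(3 / 2 + I * t : ℂ))‖ =
      b n * (n : ℝ) ^ (-(3 / 2 : ℝ)) := by
    intro n
    rcases Nat.eq_zero_or_pos n with hn | hn
    · rw [hn, h.zero]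
      simp
    · rw [norm_mul, Complex.norm_real, Real.norm_eq_abs, abs_of_nonneg (h.nonneg n),
        Complex.norm_natCast_cpow_of_pos hn]
      have : (-(3 / 2 + I * t : ℂ)).re = -(3 / 2) := by
        rw [Complex.neg_re, hre]
      rw [this]
  have h2 : ‖∑' n : ℕ, (b n : ℂ) * (n : ℂ) ^ (-(3 / 2 + I * t : ℂ))‖ ≤
      ∑' n : ℕ, b n * (n : ℝ) ^ (-(3 / 2 : ℝ)) := by
    have h3 : Summable (fun n : ℕ => ‖(b n : ℂ) * (n : ℂ) ^ (-(3 / 2 + I * t : ℂ))‖) :=
      hs.congr (fun n => (hn n).symm)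
    refine (norm_tsum_le_tsum_norm h3).trans (le_of_eq ?_)
    exact tsum_congr hn
  have h4 : ‖(3 / 2 + I * t - 1 : ℂ)‖ ≤ 1 + |t| := by
    have e : (3 / 2 + I * t - 1 : ℂ) = ((1 / 2 : ℝ) : ℂ) + I * t := by
      push_cast
      ring
    rw [e]
    refine (norm_add_le _ _).trans ?_
    rw [norm_mul, Complex.norm_I, one_mul, Complex.norm_real, Complex.norm_real,
      Real.norm_eq_abs, Real.norm_eq_abs, abs_of_nonneg (by norm_num : (0 : ℝ) ≤ 1 / 2)]
    linarith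
  rw [h1, norm_mul, mul_comm]
  exact mul_le_mul h2 h4 (norm_nonneg _) ((norm_nonneg _).trans h2)

theorem t_CS (hA : S_CSA) (hB : S_CSB) : S_CS := by
  intro b W h
  obtain ⟨C, hC, hb⟩ := hB W h.diff h.gr h.left (line_bd b W h)
  refine ⟨C, 1 / 4, hC, by norm_num, fun x L hx hL hLx => ?_⟩
  obtain ⟨h1, h2⟩ := hA b W h x L hx hL
  refine ⟨h1, ?_⟩
  have h3 := hb x L hx hL hLx
  have hL0 : 0 < L := by linarith
  have h4 : 1 ≤ Real.sqrt (2 * Real.pi) := by
    rw [Real.one_le_sqrt]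
    have := Real.pi_gt_three
    linarith
  have h5 : ∑' n : ℕ, b n * Real.exp (-(L ^ 2 * Real.log (n / x) ^ 2 / 2)) ≤
      ‖((∑' n : ℕ, b n * Real.exp (-(L ^ 2 * Real.log (n / x) ^ 2 / 2)) : ℝ) : ℂ)‖ := by
    rw [Complex.norm_real]
    exact le_abs_self _
  refine h5.trans ?_
  rw [h2, norm_mul, Complex.norm_real, Real.norm_eq_abs, abs_of_nonneg (by positivity)]
  have h6 : 1 / (Real.sqrt (2 * Real.pi) * L) ≤ 1 / L := by
    apply one_div_le_one_div_of_le hL0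
    exact le_mul_of_one_le_left hL0.le h4
  calc _ ≤ (1 / L) * (C * x) := mul_le_mul h6 h3 (norm_nonneg _) (by positivity)
    _ = C * x / L := by ring

theorem t_SHR : S_SHR := by
  intro a b hb hab ⟨C, δ, hC, hδ, hS⟩
  have hnn : ∀ (x L : ℝ) (n : ℕ), 0 ≤ b n * Real.exp (-(L ^ 2 * Real.log (n / x) ^ 2 / 2)) :=
    fun x L n => mul_nonneg (hb n) (Real.exp_pos _).le
  constructor
  · -- short intervals
    have h1 : ∀ᶠ x : ℝ in atTop, ‖Real.log x ^ (3 : ℝ)‖ ≤ 1 * ‖x ^ δ‖ :=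
      (isLittleO_log_rpow_rpow_atTop 3 hδ).bound one_pos
    obtain ⟨x₁, hx₁⟩ := h1.exists_forall_of_atTop
    obtain ⟨x₀, hx0, hx02⟩ : ∃ x₀ : ℝ, x₁ ≤ x₀ ∧ 2 ≤ x₀ := ⟨max x₁ 2, le_max_left _ _, le_max_right _ _⟩
    obtain ⟨B, hB⟩ : ∃ B : ℝ, B = ∑ n ∈ Finset.Ioc 0 ⌊2 * x₀⌋₊, b n := ⟨_, rfl⟩
    have hB0 : 0 ≤ B := by
      rw [hB]
      exact Finset.sum_nonneg (fun n _ => hb n)
    have hl0 : 0 < Real.log x₀ := Real.log_pos (by linarith)
    refine ⟨Real.exp (1 / 2) * C + B * Real.log x₀ ^ 3 / 2, by positivity, ?_⟩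
    intro x h hx hxh hhx
    have hx0' : 0 < x := by linarith
    have hlx : 0 < Real.log x := Real.log_pos (by linarith)
    have hh0 : 0 < h := lt_of_lt_of_le (by positivity) hxh
    have hab' : ∀ n : ℕ, ‖((a n : ℝ) : ℂ)‖ ^ 2 ≤ b n := by
      intro n
      rw [Complex.norm_real, Real.norm_eq_abs, sq_abs]
      exact hab n
    have h2 : ∑ n ∈ Finset.Ioc ⌊x⌋₊ ⌊x + h⌋₊, ‖((a n : ℝ) : ℂ)‖ ^ 2 ≤
        ∑ n ∈ Finset.Ioc ⌊x⌋₊ ⌊x + h⌋₊, b n := Finset.sum_le_sum (fun n _ => hab' n)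
    refine h2.trans ?_
    have hx3 : x ≤ h * Real.log x ^ 3 := (div_le_iff₀ (by positivity)).1 hxh
    rcases le_or_gt x₀ x with hc | hc
    · -- large x
      have hL1 : 1 ≤ x / h := (one_le_div hh0).2 hhx
      have hL2 : x / h ≤ x ^ δ := by
        have h3 : x / h ≤ Real.log x ^ 3 := by
          rw [div_le_iff₀ hh0]
          linarith
        have h4 := hx₁ x (hx0.trans hc)
        rw [one_mul, Real.norm_eq_abs, Real.norm_eq_abs, abs_of_nonneg (Real.rpow_nonneg hlx.le _),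
          abs_of_nonneg (Real.rpow_nonneg hx0'.le _)] at h4
        have h5 : Real.log x ^ (3 : ℝ) = Real.log x ^ 3 := by
          rw [← Real.rpow_natCast]
          norm_num
        rw [h5] at h4
        exact h3.trans h4
      obtain ⟨hs, ht⟩ := hS x (x / h) (by linarith) hL1 hL2
      have h6 : ∀ n ∈ Finset.Ioc ⌊x⌋₊ ⌊x + h⌋₊, b n ≤ Real.exp (1 / 2) *
          (b n * Real.exp (-((x / h) ^ 2 * Real.log (n / x) ^ 2 / 2))) := by
        intro n hn
        rw [Finset.mem_Ioc] at hn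
        have h7 : x < n := (Nat.floor_lt hx0'.le).1 hn.1
        have h8 : (n : ℝ) ≤ x + h := (Nat.le_floor_iff (by positivity)).1 hn.2
        have h9 : 1 ≤ (n : ℝ) / x := (one_le_div hx0').2 h7.le
        have h10 : 0 ≤ Real.log (n / x) := Real.log_nonneg h9
        have h11 : Real.log (n / x) ≤ h / x := by
          have := Real.log_le_sub_one_of_pos (by linarith : 0 < (n : ℝ) / x)
          refine this.trans ?_
          rw [div_sub_one hx0'.ne']
          exact div_le_div_of_nonneg_right (by linarith) hx0'.le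
        have h12 : (x / h) ^ 2 * Real.log (n / x) ^ 2 ≤ 1 := by
          rw [← mul_pow]
          have h13 : (x / h) * Real.log (n / x) ≤ 1 := by
            calc (x / h) * Real.log (n / x) ≤ (x / h) * (h / x) :=
                  mul_le_mul_of_nonneg_left h11 (by positivity)
              _ = 1 := by field_simp
          exact pow_le_one₀ (by positivity) h13
        have h14 : 1 ≤ Real.exp (1 / 2) * Real.exp (-((x / h) ^ 2 * Real.log (n / x) ^ 2 / 2)) := by
          rw [← Real.exp_add]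
          apply Real.one_le_exp
          linarith
        calc b n = b n * 1 := (mul_one _).symm
          _ ≤ b n * (Real.exp (1 / 2) * Real.exp (-((x / h) ^ 2 * Real.log (n / x) ^ 2 / 2))) :=
              mul_le_mul_of_nonneg_left h14 (hb n)
          _ = _ := by ring
      calc ∑ n ∈ Finset.Ioc ⌊x⌋₊ ⌊x + h⌋₊, b n
          ≤ ∑ n ∈ Finset.Ioc ⌊x⌋₊ ⌊x + h⌋₊, Real.exp (1 / 2) *
            (b n * Real.exp (-((x / h) ^ 2 * Real.log (n / x) ^ 2 / 2))) := Finset.sum_le_sum h6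
        _ = Real.exp (1 / 2) * ∑ n ∈ Finset.Ioc ⌊x⌋₊ ⌊x + h⌋₊,
            b n * Real.exp (-((x / h) ^ 2 * Real.log (n / x) ^ 2 / 2)) := by
              rw [Finset.mul_sum]
        _ ≤ Real.exp (1 / 2) * ∑' n : ℕ,
            b n * Real.exp (-((x / h) ^ 2 * Real.log (n / x) ^ 2 / 2)) := by
              apply mul_le_mul_of_nonneg_left _ (Real.exp_pos _).le
              exact hs.sum_le_tsum _ (fun n _ => hnn x (x / h) n)
        _ ≤ Real.exp (1 / 2) * (C * x / (x / h)) :=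
              mul_le_mul_of_nonneg_left ht (Real.exp_pos _).le
        _ = Real.exp (1 / 2) * C * h := by field_simp
        _ ≤ (Real.exp (1 / 2) * C + B * Real.log x₀ ^ 3 / 2) * h := by
              apply mul_le_mul_of_nonneg_right _ hh0.le
              have : 0 ≤ B * Real.log x₀ ^ 3 / 2 := by positivity
              linarith
    · -- small x
      have h3 : ∑ n ∈ Finset.Ioc ⌊x⌋₊ ⌊x + h⌋₊, b n ≤ B := by
        rw [hB]
        apply Finset.sum_le_sum_of_subset_of_nonneg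
        · intro n hn
          rw [Finset.mem_Ioc] at hn ⊢
          refine ⟨by omega, hn.2.trans (Nat.floor_le_floor (by linarith))⟩
        · intro n _ _
          exact hb n
      have h4 : Real.log x ≤ Real.log x₀ := Real.log_le_log hx0' hc.le
      have h5 : Real.log x ^ 3 ≤ Real.log x₀ ^ 3 := pow_le_pow_left₀ hlx.le h4 3
      have h6 : 2 ≤ h * Real.log x₀ ^ 3 :=
        hx.trans (hx3.trans (mul_le_mul_of_nonneg_left h5 hh0.le))
      have h7 : B ≤ B * Real.log x₀ ^ 3 / 2 * h := by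
        have h8 : B * 2 ≤ B * (h * Real.log x₀ ^ 3) := mul_le_mul_of_nonneg_left h6 hB0
        linarith
      have h9 : 0 ≤ Real.exp (1 / 2) * C * h := by positivity
      calc _ ≤ B := h3
        _ ≤ (Real.exp (1 / 2) * C + B * Real.log x₀ ^ 3 / 2) * h := by linarith
  · -- powers
    have hd1 : min δ (1 / 2) ≤ δ := min_le_left _ _
    have hd2 : min δ (1 / 2) ≤ 1 / 2 := min_le_right _ _
    have hd0 : 0 < min δ (1 / 2) := lt_min hδ (by norm_num)
    obtain ⟨d, hd⟩ : ∃ d : ℝ, d = min δ (1 / 2) := ⟨_, rfl⟩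
    rw [← hd] at hd1 hd2 hd0
    refine ⟨C, d, hC, hd0, by linarith, fun n hn => ?_⟩
    have hn1 : (1 : ℝ) ≤ n := by exact_mod_cast hn
    have hn0 : (0 : ℝ) < n := by linarith
    have hL1 : 1 ≤ (n : ℝ) ^ d := Real.one_le_rpow hn1 hd0.le
    have hL2 : (n : ℝ) ^ d ≤ (n : ℝ) ^ δ := Real.rpow_le_rpow_of_exponent_le hn1 hd1
    obtain ⟨hs, ht⟩ := hS n ((n : ℝ) ^ d) hn1 hL1 hL2
    have h1 : b n * Real.exp (-(((n : ℝ) ^ d) ^ 2 * Real.log (n / n) ^ 2 / 2)) ≤
        ∑' m : ℕ, b m * Real.exp (-(((n : ℝ) ^ d) ^ 2 * Real.log (m / n) ^ 2 / 2)) :=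
      hs.le_tsum n (fun m _ => hnn n ((n : ℝ) ^ d) m)
    have h2 : Real.exp (-(((n : ℝ) ^ d) ^ 2 * Real.log (n / n) ^ 2 / 2)) = 1 := by
      rw [div_self hn0.ne', Real.log_one]
      simp
    rw [h2, mul_one] at h1
    have h3 : C * (n : ℝ) / (n : ℝ) ^ d = C * (n : ℝ) ^ (1 - d) := by
      rw [Real.rpow_sub hn0, Real.rpow_one]
      ring
    rw [← h3]
    exact (hab n).trans (h1.trans ht)

end Pool.Agent.H784.BG
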